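import Pool.Agent.Q198.XM.Fin

/-!
# Extremal measures for the Laplacian on the Euclidean ball

A complex measure `ν` on `ℝⁿ`, `n ≥ 2`, satisfies `ν̂(ξ) = - |ξ|²` for `|ξ| ≤ 1` and `‖ν‖ = n` if and only if

`ν = - (n / 3) δ₀ + ∑_{k ≥ 1} (-1)^(k+1) (π k)_* μ_k`

where the `μ_k` are finite positive measures on the unit sphere such that for all `k ≥ 1`

* `∫ x_i dμ_k = 0` and `∫ x_i x_j dμ_k = 4 δ_ij / (π² k²)`;
* for each multi-index `α` with `m = |α| ≥ 3` there is a real polynomial `P` with `P(0) = 0` and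
  `2 deg P + 2 ≤ m` such that `k^m ∫ x^α dμ_k = P(k²)` for all `k ≥ 1`.

The measures `μ_k` are uniquely determined by `ν`, and every such sequence gives an extremal measure.

In this file the sequences are indexed by `k = 0, 1, 2, …`, so that `μ k` stands for `μ_{k+1}`.
-/

set_option autoImplicit false

namespace Pool.Agent.Results.MP_489845_an.ExtremalMeasures

open MeasureTheory

/-- the transform `ν̂(ξ) = ∫ exp (- i ⟨t, ξ⟩) dν(t)` of a complex measure on `ℝⁿ` -/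
noncomputable def transform {n : ℕ} (ν : ComplexMeasure (EuclideanSpace ℝ (Fin n)))
    (ξ : EuclideanSpace ℝ (Fin n)) : ℂ :=
  VectorMeasure.integral ν (fun t => Complex.exp (-(Complex.I * ((inner ℝ t ξ : ℝ) : ℂ))))
    (ContinuousLinearMap.mul ℝ ℂ)

/-- extremal measures: `ν̂(ξ) = - |ξ|²` on the closed unit ball and the total variation of `ν` is `n` -/
structure IsExtremal {n : ℕ} (ν : ComplexMeasure (EuclideanSpace ℝ (Fin n))) : Prop where
  symbol : ∀ ξ : EuclideanSpace ℝ (Fin n), ‖ξ‖ ≤ 1 → transform ν ξ = -((‖ξ‖ : ℂ) ^ 2)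
  norm : ν.variation Set.univ = n

/-- the conditions on the measures: `μ k` is a finite measure carried by the unit sphere, its first moments vanish,
its second moments are `4 δ_ij / (π² (k + 1)²)`, and for each multi-index `α` with `|α| ≥ 3` there is a real
polynomial `P` with `P(0) = 0`, `2 deg P + 2 ≤ |α|` and `(k + 1)^|α| ∫ x^α dμ_k = P((k + 1)²)` for all `k` -/
structure IsFamily {n : ℕ} (μ : ℕ → Measure (EuclideanSpace ℝ (Fin n))) : Prop where
  finite : ∀ k : ℕ, IsFiniteMeasure (μ k)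
  sphere : ∀ k : ℕ, μ k {x | ‖x‖ ≠ 1} = 0
  first : ∀ (k : ℕ) (i : Fin n), ∫ x, x i ∂(μ k) = 0
  second : ∀ (k : ℕ) (i j : Fin n),
    ∫ x, x i * x j ∂(μ k) = if i = j then 4 / (Real.pi ^ 2 * ((k : ℝ) + 1) ^ 2) else 0
  higher : ∀ α : Fin n → ℕ, 3 ≤ ∑ i, α i → ∃ P : Polynomial ℝ, P.eval 0 = 0 ∧
    2 * P.natDegree + 2 ≤ ∑ i, α i ∧
    ∀ k : ℕ, ((k : ℝ) + 1) ^ (∑ i, α i) * ∫ x, ∏ i, x i ^ α i ∂(μ k) = P.eval (((k : ℝ) + 1) ^ 2)

/-- `ν` is the sum of `- (n / 3) δ₀` and of the images of `(-1)^k μ k` under the dilations by `π (k + 1)` -/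
def IsSum {n : ℕ} (μ : ℕ → Measure (EuclideanSpace ℝ (Fin n)))
    (ν : ComplexMeasure (EuclideanSpace ℝ (Fin n))) : Prop :=
  ∀ E : Set (EuclideanSpace ℝ (Fin n)), MeasurableSet E →
    Summable (fun k : ℕ => (-1 : ℂ) ^ k * (((μ k).real {x | (Real.pi * ((k : ℝ) + 1)) • x ∈ E} : ℝ) : ℂ)) ∧
    ν E = -((n : ℂ) / 3) * E.indicator 1 0 +
      ∑' k : ℕ, (-1 : ℂ) ^ k * (((μ k).real {x | (Real.pi * ((k : ℝ) + 1)) • x ∈ E} : ℝ) : ℂ)

open Pool.Agent.Q198.XM

theorem isSum_iff {m : ℕ} (μ : ℕ → Measure (V m)) (ν : ComplexMeasure (V m)) :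
    IsSum μ ν ↔ ∀ E, MeasurableSet E → HasSum (fun k : ℕ => (-1 : ℂ) ^ k *
      (((μ k).real {x | (Real.pi * ((k : ℝ) + 1)) • x ∈ E} : ℝ) : ℂ))
      (ν E + ((m : ℂ) + 1) / 3 * E.indicator 1 (0 : V m)) := by
  constructor
  · intro h E hE
    obtain ⟨h1, h2⟩ := h E hE
    have h3 := h1.hasSum
    have h4 : ν E + ((m : ℂ) + 1) / 3 * E.indicator 1 (0 : V m) =
        ∑' k : ℕ, (-1 : ℂ) ^ k * (((μ k).real {x | (Real.pi * ((k : ℝ) + 1)) • x ∈ E} : ℝ) : ℂ) := by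
      rw [h2]
      push_cast
      ring
    rw [h4]
    exact h3
  · intro h E hE
    have h1 := h E hE
    refine ⟨h1.summable, ?_⟩
    rw [h1.tsum_eq]
    push_cast
    ring

theorem fm_of {m : ℕ} {μ : ℕ → Measure (V m)} (h : IsFamily μ) : Fm μ ∧ Mom μ := by
  have hsph : ∀ k, ∀ᵐ x ∂(μ k), ‖x‖ = 1 := fun k => ae_iff.2 (h.sphere k)
  have hmass : ∀ k, (μ k).real Set.univ = (4 * ((m : ℝ) + 1) / Real.pi ^ 2) * (1 / ((k : ℝ) + 1) ^ 2) := by
    intro k
    have := h.finite k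
    have h1 : (μ k).real Set.univ = ∫ x, ∑ i, x i * x i ∂(μ k) := by
      have h2 : ∫ x, ∑ i, x i * x i ∂(μ k) = ∫ x, (1 : ℝ) ∂(μ k) := by
        refine integral_congr_ae ?_
        filter_upwards [hsph k] with x hx
        have h3 := EuclideanSpace.norm_sq_eq x
        rw [hx] at h3
        simp only [Real.norm_eq_abs, sq_abs] at h3
        simp only [← sq]
        rw [← h3]
        norm_num
      rw [h2, integral_const]
      simp
    rw [h1, integral_finsetSum _ (fun i _ => by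
      have h4 := mon_int (μ k) (hsph k) (Pi.single i 1 + Pi.single i 1)
      have h5 : (mon (Pi.single i 1 + Pi.single i 1) : V m → ℝ) = fun x => x i * x i := funext (mon_pair i i)
      rwa [h5] at h4)]
    simp only [h.second k, if_true]
    rw [Finset.sum_const, Finset.card_univ, Fintype.card_fin, nsmul_eq_mul]
    push_cast
    field_simp
  refine ⟨⟨h.finite, hsph, ?_⟩, ⟨h.first, h.second, h.higher⟩⟩
  simp only [hmass]
  exact summable_sq.mul_left _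

theorem of_fm {m : ℕ} {μ : ℕ → Measure (V m)} (h : Fm μ) (h' : Mom μ) : IsFamily μ :=
  ⟨h.fin, fun k => ae_iff.1 (h.sph k), h'.one, h'.two, h'.high⟩

theorem extremal_iff {m : ℕ} (ν : ComplexMeasure (V m)) :
    IsExtremal ν ↔ (ν.variation Set.univ = ((m + 1 : ℕ) : ENNReal) ∧
      ∀ ξ : V m, ‖ξ‖ ≤ 1 → tr ν ξ = ((-‖ξ‖ ^ 2 : ℝ) : ℂ)) := by
  constructor
  · intro h
    refine ⟨h.norm, fun ξ hξ => ?_⟩
    have h1 := h.symbol ξ hξ
    have h2 : tr ν ξ = transform ν ξ := rfl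
    rw [h2, h1]
    push_cast
    rfl
  · rintro ⟨h1, h2⟩
    refine ⟨fun ξ hξ => ?_, h1⟩
    have h3 : tr ν ξ = transform ν ξ := rfl
    rw [← h3, h2 ξ hξ]
    push_cast
    rfl

theorem sum_unique {m : ℕ} {μ μ' : ℕ → Measure (V m)} {ν : ComplexMeasure (V m)} (h : IsFamily μ) (h' : IsFamily μ')
    (hs : IsSum μ ν) (hs' : IsSum μ' ν) : μ = μ' :=
  fam_unique h.finite h'.finite (fun k => ae_iff.2 (h.sphere k)) (fun k => ae_iff.2 (h'.sphere k)) (fun E => ν E)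
    ((isSum_iff μ ν).1 hs) ((isSum_iff μ' ν).1 hs')

theorem isSum_fam {m : ℕ} {μ : ℕ → Measure (V m)} (h : IsFamily μ) : IsSum μ (fam μ) :=
  (isSum_iff μ (fam μ)).2 (fam_val (fm_of h).1)

theorem sum_eq {m : ℕ} {μ : ℕ → Measure (V m)} (h : IsFamily μ) {ν : ComplexMeasure (V m)} (hs : IsSum μ ν) :
    ν = fam μ := by
  ext E hE
  have h1 := (isSum_iff μ ν).1 hs E hE
  have h2 := (isSum_iff μ (fam μ)).1 (isSum_fam h) E hE
  exact add_right_cancel (h1.unique h2)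

/-- **The extremal measures of the Laplacian on the Euclidean ball.** -/
theorem result (n : ℕ) (hn : 2 ≤ n) :
    (∀ ν : ComplexMeasure (EuclideanSpace ℝ (Fin n)),
      IsExtremal ν ↔ ∃! μ : ℕ → Measure (EuclideanSpace ℝ (Fin n)), IsFamily μ ∧ IsSum μ ν) ∧
    (∀ μ : ℕ → Measure (EuclideanSpace ℝ (Fin n)), IsFamily μ →
      ∃! ν : ComplexMeasure (EuclideanSpace ℝ (Fin n)), IsSum μ ν) := by
  obtain ⟨m, rfl⟩ := Nat.exists_eq_add_of_le' (show 1 ≤ n by omega)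
  refine ⟨fun ν => ⟨fun h => ?_, ?_⟩, fun μ h => ⟨fam μ, isSum_fam h, fun ν hν => sum_eq h hν⟩⟩
  · obtain ⟨h1, h2⟩ := (extremal_iff ν).1 h
    obtain ⟨μ, h3, h4, h5⟩ := extremal_fam ν h1 h2
    have h6 := of_fm h3 h4
    have h7 : IsSum μ ν := by
      rw [← h5]
      exact isSum_fam h6
    exact ⟨μ, ⟨h6, h7⟩, fun μ' h8 => sum_unique h8.1 h6 h8.2 h7⟩
  · rintro ⟨μ, ⟨h1, h2⟩, _⟩
    obtain ⟨h3, h4⟩ := fm_of h1
    rw [sum_eq h1 h2]
    exact (extremal_iff (fam μ)).2 (fam_extremal h3 h4)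

end Pool.Agent.Results.MP_489845_an.ExtremalMeasures
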